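import Mathlib
import Pool.Agent.H35.NA.Lift
import Pool.Agent.H35.NA.TrapS
import Pool.Agent.H35.NA.Cv

/-!
# Translations as noise: definitions and basic facts

`tr a` is the translation `z ↦ z + a` of the sphere (fixing `∞`);
`runT g [a₁, ..., aₙ] = tr aₙ ∘ g ∘ ... ∘ tr a₁ ∘ g`.
-/

set_option autoImplicit false

open Filter Topology OnePoint
open scoped ComplexConjugate
open Pool.Agent.H44.Fatou Pool.Agent.H35.NA

namespace Pool.Agent.H35.NP

/-- the translation by `a` -/
noncomputable def tr (a : ℂ) : Sph → Sph :=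
  fun x => x.elim (∞ : Sph) (fun z => ((z + a : ℂ) : Sph))

@[simp] theorem tr_coe (a z : ℂ) : tr a (z : Sph) = ((z + a : ℂ) : Sph) := rfl
@[simp] theorem tr_infty (a : ℂ) : tr a (∞ : Sph) = ∞ := rfl

/-- `runT g [a₁, ..., aₙ] = tr aₙ ∘ g ∘ ... ∘ tr a₁ ∘ g` -/
noncomputable def runT (g : Sph → Sph) : List ℂ → Sph → Sph
  | [], x => x
  | a :: w, x => runT g w (tr a (g x))

@[simp] theorem runT_nil (g : Sph → Sph) (x : Sph) : runT g [] x = x := rfl

@[simp] theorem runT_cons (g : Sph → Sph) (a : ℂ) (w : List ℂ) (x : Sph) :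
    runT g (a :: w) x = runT g w (tr a (g x)) := rfl

theorem runT_append (g : Sph → Sph) (u v : List ℂ) (x : Sph) :
    runT g (u ++ v) x = runT g v (runT g u x) := by
  induction u generalizing x with
  | nil => rfl
  | cons a u ih => simp only [List.cons_append, runT_cons, ih]

theorem runT_concat (g : Sph → Sph) (w : List ℂ) (a : ℂ) (x : Sph) :
    runT g (w ++ [a]) x = tr a (g (runT g w x)) := by
  rw [runT_append]
  rfl

/-- `g` fixes `∞` and preserves `ℂ`, as polynomials do -/
def PolyLike (g : Sph → Sph) : Prop := ∀ x : Sph, x ≠ ∞ → g x ≠ ∞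

theorem tr_ne_infty (a : ℂ) {x : Sph} (hx : x ≠ ∞) : tr a x ≠ ∞ := by
  obtain ⟨z, rfl⟩ := OnePoint.ne_infty_iff_exists.1 hx
  rw [tr_coe]
  exact coe_ne_infty _

theorem runT_ne_infty {g : Sph → Sph} (hg : PolyLike g) (w : List ℂ) :
    ∀ {x : Sph}, x ≠ ∞ → runT g w x ≠ ∞ := by
  induction w with
  | nil => intro x hx; exact hx
  | cons a w ih => intro x hx; exact ih (tr_ne_infty a (hg x hx))

theorem tr_pt (a : ℂ) {x y : ℂ} : tr a (pt x y) = pt (x + a * y) y := by
  unfold pt
  by_cases hy : y = 0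
  · rw [if_pos hy, if_pos hy]; rfl
  · rw [if_neg hy, if_neg hy, tr_coe]
    congr 1
    field_simp

theorem tr_continuous (a : ℂ) : Continuous (tr a) := by
  have h : tr a = rat (Polynomial.X + Polynomial.C a) 1 := by
    funext x
    induction x using OnePoint.rec with
    | infty =>
      have hdg : dg (Polynomial.X + Polynomial.C a) (1 : Polynomial ℂ) = 1 := by
        unfold dg
        rw [Polynomial.natDegree_X_add_C, Polynomial.natDegree_one]
        rfl
      rw [rat_infty, hdg]
      have h1 : (1 : Polynomial ℂ).coeff 1 = 0 := by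
        rw [Polynomial.coeff_one]; rfl
      unfold pt
      rw [if_pos h1]
      rfl
    | coe z =>
      rw [rat_coe]
      unfold pt
      simp
  rw [h]
  exact rat_continuous isCoprime_one_right

theorem tr_injective (a : ℂ) : Function.Injective (tr a) := by
  intro x y h
  induction x using OnePoint.rec with
  | infty =>
    induction y using OnePoint.rec with
    | infty => rfl
    | coe z => exact absurd h (infty_ne_coe _)
  | coe w =>
    induction y using OnePoint.rec with
    | infty => exact absurd h (coe_ne_infty _)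
    | coe z =>
      rw [tr_coe, tr_coe, coe_eq_coe] at h
      rw [add_right_cancel h]

theorem tr_open (a : ℂ) {y : Sph} (hy : y ≠ ∞) {N : Set ℂ} (hN : N ∈ 𝓝 a) :
    {z : Sph | ∃ s ∈ N, tr s y = z} ∈ 𝓝 (tr a y) := by
  obtain ⟨z, rfl⟩ := OnePoint.ne_infty_iff_exists.1 hy
  rw [tr_coe, nhds_coe_eq]
  have h1 : (fun w : ℂ => w - z) ⁻¹' N ∈ 𝓝 (z + a) := by
    have hc : ContinuousAt (fun w : ℂ => w - z) (z + a) := by fun_prop
    apply hc
    change N ∈ 𝓝 (z + a - z)
    have : z + a - z = a := by ring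
    rw [this]
    exact hN
  refine mem_map.2 (mem_of_superset h1 ?_)
  intro w hw
  exact ⟨w - z, hw, by rw [tr_coe]; congr 1; ring⟩

theorem tr_adjust (a : ℂ) {y : Sph} (hy : y ≠ ∞) {N : Set ℂ} (hN : N ∈ 𝓝 a) :
    ∀ᶠ y' in 𝓝 y, ∃ s ∈ N, tr s y' = tr a y := by
  obtain ⟨z, rfl⟩ := OnePoint.ne_infty_iff_exists.1 hy
  rw [nhds_coe_eq, eventually_map]
  have hc : ContinuousAt (fun w : ℂ => z + a - w) z := by fun_prop
  have h1 : (fun w : ℂ => z + a - w) ⁻¹' N ∈ 𝓝 z := by
    apply hc
    change N ∈ 𝓝 (z + a - z)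
    have : z + a - z = a := by ring
    rw [this]
    exact hN
  filter_upwards [h1] with w hw
  exact ⟨z + a - w, hw, by rw [tr_coe, tr_coe]; congr 1; ring⟩

theorem sphHol_tr (a : ℂ) : SphHol (tr a) := by
  refine ⟨fun v => (v.1 + a * v.2, v.2), ?_, ?_, ?_⟩
  · fun_prop
  · intro v hv h
    apply hv
    have h1 : v.2 = 0 := congrArg Prod.snd h
    have h2 : v.1 + a * v.2 = 0 := congrArg Prod.fst h
    rw [h1, mul_zero, add_zero] at h2
    exact Prod.ext h2 h1
  · intro v _
    exact tr_pt a

theorem sphHol_runT {g : Sph → Sph} (hg : SphHol g) (w : List ℂ) : SphHol (runT g w) := by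
  induction w with
  | nil => exact sphHol_id
  | cons a w ih => exact ih.comp ((sphHol_tr a).comp hg)

theorem runT_continuous {g : Sph → Sph} (hg : Continuous g) (w : List ℂ) :
    Continuous (runT g w) := by
  induction w with
  | nil => exact continuous_id
  | cons a w ih => exact ih.comp ((tr_continuous a).comp hg)

theorem crit_tr (a : ℂ) : crit (tr a) = ∅ := by
  rw [Set.eq_empty_iff_forall_notMem]
  intro x hx
  exact hx ⟨Set.univ, Filter.univ_mem, (tr_injective a).injOn⟩

theorem finCV_runT {g : Sph → Sph} (hg : Continuous g) (hv : FinCV g) (w : List ℂ) :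
    FinCV (runT g w) := by
  induction w with
  | nil =>
    have h0 : crit (runT g []) = ∅ := by
      rw [Set.eq_empty_iff_forall_notMem]
      intro x hx
      exact hx ⟨Set.univ, Filter.univ_mem, fun a _ b _ hab => hab⟩
    unfold FinCV
    rw [h0, Set.image_empty]
    exact Set.finite_empty
  | cons a w ih =>
    have h0 : FinCV (tr a) := by
      unfold FinCV
      rw [crit_tr, Set.image_empty]
      exact Set.finite_empty
    have h1 : FinCV (fun x => tr a (g x)) := finCV_comp hg h0 hv
    have hc : Continuous (fun x => tr a (g x)) := (tr_continuous a).comp hg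
    exact finCV_comp (f := runT g w) (h := fun x => tr a (g x)) hc ih h1

end Pool.Agent.H35.NP
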