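import Mathlib
import Pool.Agent.H35.NP.Defs

/-!
# Families of words of translations (adapted from H35/NA/Fam)
-/

set_option autoImplicit false

open Filter Topology OnePoint
open Pool.Agent.H44.Fatou Pool.Agent.H35.NA

namespace Pool.Agent.H35.NP

open Classical in
/-- number of letters different from `0` -/
noncomputable def kicks (w : List ℂ) : ℕ := w.countP (fun r => decide (r ≠ 0))

/-- words of small translations with few letters different from `0` -/
def LL (ε : ℝ) (M : ℕ) : Set (List ℂ) :=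
  {u | ∃ w r, u = w ++ [r] ∧ (∀ s ∈ u, ‖s‖ < ε) ∧ M * (kicks w + 1) ≤ w.length + 1}

/-- the set of points reachable from `x` -/
def Reach (g : Sph → Sph) (ε : ℝ) (M : ℕ) (x : Sph) : Set Sph :=
  {y | ∃ u ∈ LL ε M, runT g u x = y}

theorem kicks_append (u v : List ℂ) : kicks (u ++ v) = kicks u + kicks v := by
  unfold kicks
  rw [List.countP_append]

theorem kicks_singleton_le (r : ℂ) : kicks [r] ≤ 1 := by
  unfold kicks
  exact List.countP_le_length.trans (by simp)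

theorem kicks_replicate (j : ℕ) : kicks (List.replicate j 0) = 0 := by
  unfold kicks
  rw [List.countP_eq_zero]
  intro a ha
  have := List.eq_of_mem_replicate ha
  simp [this]

theorem LL_append {ε : ℝ} {M : ℕ} {u v : List ℂ} (hu : u ∈ LL ε M) (hv : v ∈ LL ε M) :
    u ++ v ∈ LL ε M := by
  obtain ⟨w, r, rfl, hs, hk⟩ := hu
  obtain ⟨w', r', rfl, hs', hk'⟩ := hv
  refine ⟨w ++ [r] ++ w', r', by simp, ?_, ?_⟩
  · intro s hs1
    rcases List.mem_append.1 hs1 with h | h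
    · exact hs s h
    · exact hs' s h
  · have h1 : kicks (w ++ [r] ++ w') ≤ kicks w + 1 + kicks w' := by
      rw [kicks_append, kicks_append]
      have := kicks_singleton_le r
      omega
    have h2 : (w ++ [r] ++ w').length + 1 = (w.length + 1) + (w'.length + 1) := by
      simp
      ring
    rw [h2]
    calc M * (kicks (w ++ [r] ++ w') + 1) ≤ M * ((kicks w + 1) + (kicks w' + 1)) :=
          Nat.mul_le_mul_left M (by omega)
      _ = M * (kicks w + 1) + M * (kicks w' + 1) := by ring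
      _ ≤ (w.length + 1) + (w'.length + 1) := Nat.add_le_add hk hk'

theorem LL_replicate {ε : ℝ} (hε : 0 < ε) {M n : ℕ} (hM : 1 ≤ M) (hn : M ≤ n) :
    List.replicate n (0 : ℂ) ∈ LL ε M := by
  obtain ⟨k, rfl⟩ : ∃ k, n = k + 1 := ⟨n - 1, by omega⟩
  refine ⟨List.replicate k 0, 0, List.replicate_succ', ?_, ?_⟩
  · intro s hs
    rw [List.eq_of_mem_replicate hs]
    simpa using hε
  · rw [kicks_replicate]
    simpa using hn

theorem LL_open {ε : ℝ} {M : ℕ} {w : List ℂ} {r : ℂ} (h : w ++ [r] ∈ LL ε M) :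
    ∀ᶠ s in 𝓝 r, w ++ [s] ∈ LL ε M := by
  obtain ⟨w', r', hw, hs, hk⟩ := h
  obtain ⟨rfl, hr⟩ := List.append_inj' hw rfl
  have hr' : r = r' := by simpa using hr
  subst hr'
  have hsm : ‖r‖ < ε := hs r (by simp)
  have h1 : ∀ᶠ s : ℂ in 𝓝 r, ‖s‖ < ε :=
    continuous_norm.continuousAt.eventually (eventually_lt_nhds hsm)
  filter_upwards [h1] with s hs1
  refine ⟨w, s, rfl, ?_, hk⟩
  intro t ht
  rcases List.mem_append.1 ht with h | h
  · exact hs t (List.mem_append_left _ h)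
  · have : t = s := by simpa using h
    subst this
    exact hs1

theorem LL_small {ε : ℝ} {M : ℕ} {u : List ℂ} (hu : u ∈ LL ε M) : ∀ s ∈ u, ‖s‖ < ε := by
  obtain ⟨w, r, rfl, hs, hk⟩ := hu
  exact hs

theorem LL_kicks {ε : ℝ} {M : ℕ} {u : List ℂ} (hu : u ∈ LL ε M) : M * kicks u ≤ u.length := by
  obtain ⟨w, r, rfl, hs, hk⟩ := hu
  have h1 : kicks (w ++ [r]) ≤ kicks w + 1 := by
    rw [kicks_append]
    have := kicks_singleton_le r
    omega
  calc M * kicks (w ++ [r]) ≤ M * (kicks w + 1) := Nat.mul_le_mul_left M h1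
    _ ≤ w.length + 1 := hk
    _ = (w ++ [r]).length := by simp

theorem reach_open {g : Sph → Sph} (hp : PolyLike g) {ε : ℝ} {M : ℕ} {u : List ℂ}
    (hu : u ∈ LL ε M) {x : Sph} (hx : x ≠ ∞) :
    {y : Sph | ∃ u' ∈ LL ε M, u'.length = u.length ∧ runT g u' x = y} ∈ 𝓝 (runT g u x) := by
  obtain ⟨w, r, rfl, h⟩ := hu
  have hN := LL_open (ε := ε) (M := M) (w := w) (r := r) ⟨w, r, rfl, h⟩
  have h1 := tr_open r (hp _ (runT_ne_infty hp w hx)) hN
  rw [runT_concat]
  refine Filter.mem_of_superset h1 ?_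
  rintro z ⟨s, hs, hz⟩
  refine ⟨w ++ [s], hs, by simp, ?_⟩
  rw [runT_concat, hz]

theorem reach_adjust {g : Sph → Sph} (hg : Continuous g) (hp : PolyLike g) {ε : ℝ} {M : ℕ}
    {u : List ℂ} (hu : u ∈ LL ε M) {x : Sph} (hx : x ≠ ∞) :
    ∀ᶠ x' in 𝓝 x, ∃ u' ∈ LL ε M, u'.length = u.length ∧ runT g u' x' = runT g u x := by
  obtain ⟨w, r, rfl, h⟩ := hu
  have hN := LL_open (ε := ε) (M := M) (w := w) (r := r) ⟨w, r, rfl, h⟩
  have h1 := tr_adjust r (hp _ (runT_ne_infty hp w hx)) hN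
  have hc : Continuous (fun x' => g (runT g w x')) := hg.comp (runT_continuous hg w)
  have h2 := hc.continuousAt.eventually h1
  filter_upwards [h2] with x' hx'
  obtain ⟨s, hs, hz⟩ := hx'
  refine ⟨w ++ [s], hs, by simp, ?_⟩
  rw [runT_concat, runT_concat, hz]

theorem reach_isOpen {g : Sph → Sph} (hp : PolyLike g) {ε : ℝ} {M : ℕ} {x : Sph} (hx : x ≠ ∞) :
    IsOpen (Reach g ε M x) := by
  rw [isOpen_iff_mem_nhds]
  rintro y ⟨u, hu, rfl⟩
  refine Filter.mem_of_superset (reach_open hp hu hx) ?_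
  rintro z ⟨u', hu', -, hz⟩
  exact ⟨u', hu', hz⟩

/-- a trap at infinity for small translations -/
structure Trap (g : Sph → Sph) (ε : ℝ) (D : Set Sph) : Prop where
  open_D : IsOpen D
  inf_D : (∞ : Sph) ∈ D
  cl_D : closure D ≠ Set.univ
  maps : ∀ a : ℂ, ‖a‖ < ε → ∀ x ∈ closure D, tr a (g x) ∈ D

theorem Trap.run {g : Sph → Sph} {ε : ℝ} {D : Set Sph} (F : Trap g ε D) (u : List ℂ)
    (hu : ∀ s ∈ u, ‖s‖ < ε) : ∀ x ∈ D, runT g u x ∈ D := by
  induction u with
  | nil => intro x hx; exact hx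
  | cons a w ih =>
    intro x hx
    exact ih (fun s hs => hu s (List.mem_cons_of_mem _ hs)) _
      (F.maps a (hu a List.mem_cons_self) x (subset_closure hx))

theorem Trap.run' {g : Sph → Sph} {ε : ℝ} {D : Set Sph} (F : Trap g ε D) {M : ℕ} {u : List ℂ}
    (hu : u ∈ LL ε M) : ∀ x ∈ closure D, runT g u x ∈ D := by
  intro x hx
  have hs := LL_small hu
  obtain ⟨w, r, rfl, -⟩ := hu
  cases w with
  | nil => exact F.maps r (hs r (by simp)) x hx
  | cons a w =>
    have h1 := F.maps a (hs a (by simp)) x hx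
    exact F.run (w ++ [r]) (fun s h => hs s (by
      rw [List.cons_append]
      exact List.mem_cons_of_mem _ h)) _ h1

theorem exists_T {g : Sph → Sph} (hg : Continuous g) (hp : PolyLike g) {ε : ℝ} {M : ℕ}
    (hε : 0 < ε) (hM : 1 ≤ M) {D : Set Sph} (F : Trap g ε D) :
    ∃ T : Set Sph, IsOpen T ∧ closure T ≠ Set.univ ∧
      (∀ u ∈ LL ε M, ∀ x ∈ closure T, runT g u x ∈ T) ∧
      ∀ x : Sph, ∃ u ∈ LL ε M, runT g u x ∈ D ∪ T := by
  set T : Set Sph := ⋃₀ {U | IsOpen U ∧ Disjoint U D ∧ ∀ u ∈ LL ε M, ∀ x ∈ U, runT g u x ∈ U}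
    with hTdef
  have hTo : IsOpen T := isOpen_sUnion (fun U hU => hU.1)
  have hTm : ∀ u ∈ LL ε M, ∀ x ∈ T, runT g u x ∈ T := by
    rintro u hu x ⟨U, hU, hxU⟩
    exact ⟨U, hU, hU.2.2 u hu x hxU⟩
  have hTD : Disjoint T D := by
    rw [Set.disjoint_left]
    rintro x ⟨U, hU, hxU⟩ hxD
    exact (Set.disjoint_left.1 hU.2.1) hxU hxD
  have hinf : (∞ : Sph) ∉ closure T := by
    intro h
    obtain ⟨y, hyD, hyT⟩ := mem_closure_iff.1 h D F.open_D F.inf_D
    exact (Set.disjoint_left.1 hTD) hyT hyD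
  refine ⟨T, hTo, ?_, ?_, ?_⟩
  · intro h
    exact hinf (h ▸ trivial)
  · intro u hu x hx
    have hx0 : x ≠ ∞ := fun h => hinf (h ▸ hx)
    have h1 := reach_adjust hg hp hu hx0
    obtain ⟨x', ⟨u', hu', -, hz⟩, hx'⟩ := (mem_closure_iff_nhds.1 hx) _ h1
    rw [← hz]
    exact hTm u' hu' x' hx'
  · intro x
    by_cases hx0 : x = ∞
    · refine ⟨_, LL_replicate hε hM le_rfl, Or.inl ?_⟩
      apply F.run' (LL_replicate hε hM le_rfl)
      rw [hx0]
      exact subset_closure F.inf_D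
    · by_cases h : Disjoint (Reach g ε M x) D
      · refine ⟨_, LL_replicate hε hM le_rfl, Or.inr ⟨Reach g ε M x,
          ⟨reach_isOpen hp hx0, h, ?_⟩, ⟨_, LL_replicate hε hM le_rfl, rfl⟩⟩⟩
        rintro v hv y ⟨w, hw, rfl⟩
        exact ⟨w ++ v, LL_append hw hv, runT_append g w v x⟩
      · rw [Set.not_disjoint_iff] at h
        obtain ⟨y, ⟨u, hu, rfl⟩, hyD⟩ := h
        exact ⟨u, hu, Or.inl hyD⟩

theorem exists_alphabet {g : Sph → Sph} (hg : Continuous g) {ε : ℝ} {M : ℕ} (hε : 0 < ε)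
    (hM : 1 ≤ M) {D : Set Sph} (F : Trap g ε D) {T : Set Sph} (hT : IsOpen T)
    (hmap : ∀ u ∈ LL ε M, ∀ x ∈ closure T, runT g u x ∈ T)
    (hall : ∀ x : Sph, ∃ u ∈ LL ε M, runT g u x ∈ D ∪ T) :
    ∃ (N : ℕ) (B : Finset (List ℂ)), 1 ≤ N ∧ B.Nonempty ∧ (∀ b ∈ B, b ∈ LL ε M ∧ b.length = N) ∧
      ∀ x : Sph, ∃ b ∈ B, runT g b x ∈ D ∪ T := by
  classical
  choose U hUL hU using hall
  have hopen : IsOpen (D ∪ T) := F.open_D.union hT
  have hnh : ∀ x : Sph, {y | runT g (U x) y ∈ D ∪ T} ∈ 𝓝 x := by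
    intro x
    exact (hopen.preimage (runT_continuous hg (U x))).mem_nhds (hU x)
  obtain ⟨t, ht⟩ := CompactSpace.elim_nhds_subcover (fun x => {y | runT g (U x) y ∈ D ∪ T}) hnh
  have hn₁ : ∀ n ≥ M, ∃ u ∈ LL ε M, u.length = n := fun n hn =>
    ⟨_, LL_replicate hε hM hn, List.length_replicate⟩
  set N : ℕ := M + 1 + ∑ x ∈ t, (U x).length with hN
  have hlen : ∀ x ∈ t, M ≤ N - (U x).length ∧ (U x).length ≤ N := by
    intro x hx
    have h1 : (U x).length ≤ ∑ x ∈ t, (U x).length :=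
      Finset.single_le_sum (f := fun x => (U x).length) (fun _ _ => Nat.zero_le _) hx
    omega
  have hW : ∀ x : Sph, ∃ w : List ℂ, x ∈ t → (w ∈ LL ε M ∧ (U x).length + w.length = N) := by
    intro x
    by_cases hx : x ∈ t
    · obtain ⟨w, hw, hwl⟩ := hn₁ _ (hlen x hx).1
      exact ⟨w, fun _ => ⟨hw, by have := (hlen x hx).2; omega⟩⟩
    · exact ⟨[], fun h => absurd h hx⟩
  choose W hW using hW
  refine ⟨N, t.image (fun x => U x ++ W x), by omega, ?_, ?_, ?_⟩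
  · rw [Finset.image_nonempty]
    by_contra h
    rw [Finset.not_nonempty_iff_eq_empty] at h
    rw [h] at ht
    have h1 : (∞ : Sph) ∈ (⊤ : Set Sph) := trivial
    rw [← ht] at h1
    simp at h1
  · intro b hb
    obtain ⟨x, hx, rfl⟩ := Finset.mem_image.1 hb
    refine ⟨LL_append (hUL x) (hW x hx).1, ?_⟩
    rw [List.length_append, (hW x hx).2]
  · intro y
    have h1 : y ∈ (⊤ : Set Sph) := trivial
    rw [← ht] at h1
    obtain ⟨x, hx, hy⟩ := Set.mem_iUnion₂.1 h1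
    refine ⟨U x ++ W x, Finset.mem_image.2 ⟨x, hx, rfl⟩, ?_⟩
    rw [runT_append]
    rcases hy with h | h
    · exact Or.inl (F.run' (hW x hx).1 _ (subset_closure h))
    · exact Or.inr (hmap _ (hW x hx).1 _ (subset_closure h))

end Pool.Agent.H35.NP
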