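import Mathlib
import Pool.Agent.H35.NP.Fam
import Pool.Agent.H35.NA.Stage2

/-!
# From the trap at infinity to long words of translations with hyperbolic composition
(adapted from H35/NA/Stage2)
-/

set_option autoImplicit false

open Filter Topology OnePoint
open Pool.Agent.H44.Fatou
open Pool.Agent.H35.NA (Sph crit FinCV Attr SphHol path path_add path_shift path_mem crit_path
  exists_cyclic_word exists_large attr_of_iterate attr_of_trap)

namespace Pool.Agent.H35.NP

theorem stage2 {g : Sph → Sph} (hg : Continuous g) (hp : PolyLike g) (hol : SphHol g)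
    (hv : FinCV g) {ε : ℝ} (hε : 0 < ε) {M : ℕ} (hM : 1 ≤ M) {D : Set Sph} (F : Trap g ε D) :
    ∃ n₀ : ℕ, ∀ n ≥ n₀, ∃ w ∈ LL ε M, w.length = n ∧
      ∀ c ∈ crit (runT g w), Attr (runT g w) c := by
  obtain ⟨T, hTo, hTne, hTm, hall⟩ := exists_T hg hp hε hM F
  obtain ⟨N, B, hN, hBne, hB, hBx⟩ := exists_alphabet hg hε hM F hTo hTm hall
  obtain ⟨n₁, hn₁⟩ : ∃ n₁ : ℕ, ∀ n ≥ n₁, ∃ u ∈ LL ε M, u.length = n :=
    ⟨M, fun n hn => ⟨_, LL_replicate hε hM hn, List.length_replicate⟩⟩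
  choose! φ hφ using hn₁
  have hAL : ∀ u ∈ LL ε M, ∀ x ∈ D ∪ T, runT g u x ∈ D ∪ T := by
    intro u hu x hx
    rcases hx with hx | hx
    · exact Or.inl (F.run' hu x (subset_closure hx))
    · exact Or.inr (hTm u hu x (subset_closure hx))
  set cv : List ℂ → Finset Sph := fun w => (finCV_runT hg hv w).toFinset with hcv
  set s : ℕ := ∑ b ∈ B, ((cv b).card + ∑ ρ ∈ Finset.range (n₁ + N), (cv (b ++ φ ρ)).card) with hs
  have hs1 : ∀ b ∈ B, (cv b).card ≤ s := by
    intro b hb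
    refine le_trans ?_ (Finset.single_le_sum (f := fun b => (cv b).card +
      ∑ ρ ∈ Finset.range (n₁ + N), (cv (b ++ φ ρ)).card) (fun _ _ => Nat.zero_le _) hb)
    exact Nat.le_add_right _ _
  have hs2 : ∀ b ∈ B, ∀ ρ < n₁ + N, (cv (b ++ φ ρ)).card ≤ s := by
    intro b hb ρ hρ
    refine le_trans ?_ (Finset.single_le_sum (f := fun b => (cv b).card +
      ∑ ρ ∈ Finset.range (n₁ + N), (cv (b ++ φ ρ)).card) (fun _ _ => Nat.zero_le _) hb)
    refine le_trans ?_ (Nat.le_add_left _ _)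
    exact Finset.single_le_sum (f := fun ρ => (cv (b ++ φ ρ)).card) (fun _ _ => Nat.zero_le _)
      (Finset.mem_range.2 hρ)
  have hne : Nonempty B := by
    obtain ⟨b, hb⟩ := hBne
    exact ⟨⟨b, hb⟩⟩
  obtain ⟨L₀, hL₀⟩ := exists_large s (Fintype.card B) (Fintype.card_pos)
  refine ⟨n₁ + N + (L₀ + 1) * N, fun n hn => ?_⟩
  obtain ⟨L', ρ, hL', hρ1, hρ2, hneq⟩ : ∃ L' ρ : ℕ, L₀ ≤ L' ∧ n₁ ≤ ρ ∧ ρ < n₁ + N ∧
      n = (L' + 1) * N + ρ := by
    refine ⟨(n - n₁) / N - 1, n₁ + (n - n₁) % N, ?_, Nat.le_add_right _ _,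
      Nat.add_lt_add_left (Nat.mod_lt _ hN) _, ?_⟩
    · have h1 : L₀ + 2 ≤ (n - n₁) / N := by
        rw [Nat.le_div_iff_mul_le hN]
        have : (L₀ + 2) * N = N + (L₀ + 1) * N := by ring
        omega
      omega
    · have h1 : L₀ + 2 ≤ (n - n₁) / N := by
        rw [Nat.le_div_iff_mul_le hN]
        have : (L₀ + 2) * N = N + (L₀ + 1) * N := by ring
        omega
      have h2 : (n - n₁) / N - 1 + 1 = (n - n₁) / N := by omega
      rw [h2]
      have h3 := Nat.div_add_mod' (n - n₁) N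
      have h4 : n₁ ≤ n := by
        have := Nat.zero_le ((L₀ + 1) * N)
        omega
      omega
  have hφρ := hφ ρ hρ1
  set f : ℕ → B → Sph → Sph := fun i b => if i = 0 then runT g (b.1 ++ φ ρ) else runT g b.1 with hf
  set V : ℕ → B → Finset Sph := fun i b => if i = 0 then cv (b.1 ++ φ ρ) else cv b.1 with hV
  have hfL : ∀ (i : ℕ) (b : B), ∃ u ∈ LL ε M, (∀ x, f i b x = runT g u x) ∧ f i b = runT g u ∧
      V i b = cv u := by
    intro i b
    by_cases hi : i = 0
    · refine ⟨b.1 ++ φ ρ, LL_append (hB b.1 b.2).1 hφρ.1, ?_, ?_, ?_⟩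
      · intro x; simp [hf, hi]
      · simp [hf, hi]
      · simp [hV, hi]
    · refine ⟨b.1, (hB b.1 b.2).1, ?_, ?_, ?_⟩
      · intro x; simp [hf, hi]
      · simp [hf, hi]
      · simp [hV, hi]
  have hfc : ∀ i b, Continuous (f i b) := by
    intro i b
    obtain ⟨u, hu, h1, h2, -⟩ := hfL i b
    rw [h2]
    exact runT_continuous hg u
  have hfA : ∀ i b, ∀ x ∈ D ∪ T, f i b x ∈ D ∪ T := by
    intro i b x hx
    obtain ⟨u, hu, h1, -⟩ := hfL i b
    rw [h1]
    exact hAL u hu x hx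
  obtain ⟨W, hW⟩ := exists_cyclic_word (D ∪ T) s L' f V (fun i _ b x hx => hfA i b x hx)
    (fun i _ x => by
      obtain ⟨b, hb, hbx⟩ := hBx x
      by_cases hi : i = 0
      · refine ⟨⟨b, hb⟩, ?_⟩
        simp only [hf, hi, if_true]
        rw [runT_append]
        exact hAL _ hφρ.1 _ hbx
      · refine ⟨⟨b, hb⟩, ?_⟩
        simp only [hf, hi, if_false]
        exact hbx)
    (fun i _ b => by
      by_cases hi : i = 0
      · simp only [hV, hi, if_true]
        exact hs2 b.1 b.2 ρ hρ2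
      · simp only [hV, hi, if_false]
        exact hs1 b.1 b.2)
    (hL₀ L' hL')
  -- the word
  have hword : ∀ m ≤ L', ∃ w ∈ LL ε M, w.length = (m + 1) * N + ρ ∧
      ∀ x, runT g w x = path (L' + 1) f W 0 (m + 1) x := by
    intro m
    induction m with
    | zero =>
      intro _
      refine ⟨(W 0).1 ++ φ ρ, LL_append (hB _ (W 0).2).1 hφρ.1, ?_, ?_⟩
      · rw [List.length_append, (hB _ (W 0).2).2, hφρ.2]
        ring
      · intro x
        simp [path, hf]
    | succ m ih =>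
      intro hm
      obtain ⟨w, hw, hwl, hwx⟩ := ih (by omega)
      refine ⟨w ++ (W (m + 1)).1, LL_append hw (hB _ (W (m + 1)).2).1, ?_, ?_⟩
      · rw [List.length_append, (hB _ (W (m + 1)).2).2, hwl]
        ring
      · intro x
        have h1 : (0 + (m + 1)) % (L' + 1) = m + 1 := by
          rw [Nat.zero_add]; exact Nat.mod_eq_of_lt (by omega)
        have h2 : ∀ (i : ℕ) (y : Sph), path (L' + 1) f W i 1 y
            = f (i % (L' + 1)) (W (i % (L' + 1))) y := fun _ _ => rfl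
        rw [runT_append, hwx, path_add (L' + 1) f W 0 (m + 1) 1 x, h2, h1]
        simp [hf]
  obtain ⟨w, hwL, hwl, hwx⟩ := hword L' le_rfl
  refine ⟨w, hwL, by rw [hwl, hneq], ?_⟩
  intro c hc
  have hrun : runT g w = fun x => path (L' + 1) f W 0 (L' + 1) x := funext hwx
  have hc' : c ∈ crit (fun x => path (L' + 1) f W 0 (L' + 1) x) := by rw [← hrun]; exact hc
  obtain ⟨j, hj, hcj⟩ := crit_path (L' + 1) f hfc W (L' + 1) 0 c hc'
  have hjm : (0 + j) % (L' + 1) = j := by rw [Nat.zero_add]; exact Nat.mod_eq_of_lt hj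
  rw [hjm] at hcj
  obtain ⟨u, hu, hfu, hfu', hVu⟩ := hfL j (W j)
  have hv1 : f j (W j) (path (L' + 1) f W 0 j c) ∈ V j (W j) := by
    rw [hVu, hfu, hcv]
    simp only [Set.Finite.mem_toFinset]
    rw [hfu'] at hcj
    exact ⟨_, hcj, rfl⟩
  have hv2 := hW j (by omega) _ hv1
  have hA2 : path (L' + 1) f W 0 (2 * (L' + 1)) c ∈ D ∪ T := by
    have h1 : 2 * (L' + 1) = j + (1 + (L' + (L' + 1 - j))) := by omega
    rw [h1, path_add, path_add, path_add]
    apply path_mem (Nat.succ_pos L') (fun i _ b x hx => hfA i b x hx)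
    have h2 : path (L' + 1) f W (0 + j) 1 (path (L' + 1) f W 0 j c)
        = f j (W j) (path (L' + 1) f W 0 j c) := by
      simp only [path]
      rw [hjm]
    rw [h2]
    have h3 : 0 + j + 1 = j + 1 := by ring
    rw [h3]
    exact hv2
  have hHH : (runT g w)^[2] c ∈ D ∪ T := by
    have h1 : (runT g w)^[2] c = runT g w (runT g w c) := rfl
    rw [h1, hwx c, hwx]
    have h2 := path_shift (L' + 1) f W 0 (L' + 1) (path (L' + 1) f W 0 (L' + 1) c)
    rw [← h2, Nat.add_zero]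
    have h3 := path_add (L' + 1) f W 0 (L' + 1) (L' + 1) c
    rw [Nat.zero_add] at h3
    rw [← h3]
    have h4 : L' + 1 + (L' + 1) = 2 * (L' + 1) := by ring
    rw [h4]
    exact hA2
  have hHc : Continuous (runT g w) := runT_continuous hg w
  have hHol : SphHol (runT g w) := sphHol_runT hol w
  apply attr_of_iterate hHc 2
  rcases hHH with h | h
  · exact attr_of_trap hHc hHol F.open_D F.cl_D (F.run' hwL) h
  · exact attr_of_trap hHc hHol hTo hTne (hTm w hwL) h

end Pool.Agent.H35.NP
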