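import Mathlib
import Pool.Agent.H35.NP.Stage2
import Pool.Agent.H35.NA.Alg
import Pool.Agent.H35.NA.Final

/-!
# Compositions of a polynomial with small rare translations: assembly
-/

set_option autoImplicit false

open Filter Topology OnePoint
open Pool.Agent.H44.Fatou
open Pool.Agent.H35.NA (Sph crit FinCV Attr SphHol sphHol_rat finCV_rat)

namespace Pool.Agent.H35.NP

theorem rat_one_coe (P : Polynomial ℂ) (z : ℂ) : rat P 1 (z : Sph) = ((P.eval z : ℂ) : Sph) := by
  rw [rat_coe]
  unfold pt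
  simp

theorem rat_one_infty {P : Polynomial ℂ} (hP : 1 ≤ P.natDegree) : rat P 1 (∞ : Sph) = ∞ := by
  have hdg : 1 ≤ dg P 1 := hP.trans (le_max_left _ _)
  rw [rat_infty]
  unfold pt
  rw [if_pos]
  rw [Polynomial.coeff_one, if_neg (by omega)]

theorem polyLike_rat (P : Polynomial ℂ) : PolyLike (rat P 1) := by
  intro x hx
  obtain ⟨z, rfl⟩ := OnePoint.ne_infty_iff_exists.1 hx
  rw [rat_one_coe]
  exact coe_ne_infty _

/-- growth of a polynomial of degree at least two -/
theorem growth {P : Polynomial ℂ} (hP : 2 ≤ P.natDegree) (ε : ℝ) :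
    ∃ R : ℝ, 0 < R ∧ ∀ z : ℂ, R ≤ ‖z‖ → ‖z‖ + ε < ‖P.eval z‖ := by
  have hdeg : 0 < P.divX.degree := by
    rw [← Polynomial.natDegree_pos_iff_degree_pos, Polynomial.natDegree_divX_eq_natDegree_tsub_one]
    omega
  have h1 : Tendsto (fun z : ℂ => ‖P.divX.eval z‖) (Bornology.cobounded ℂ) atTop :=
    Polynomial.tendsto_norm_atTop P.divX hdeg tendsto_norm_cobounded_atTop
  have h2 : ∀ᶠ z in Bornology.cobounded ℂ, 2 ≤ ‖P.divX.eval z‖ := h1.eventually_ge_atTop 2
  rw [← comap_norm_atTop, eventually_comap] at h2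
  obtain ⟨R₀, hR₀⟩ := eventually_atTop.1 h2
  refine ⟨max (max R₀ 1) (‖P.coeff 0‖ + ε + 1), lt_of_lt_of_le one_pos
    ((le_max_right _ _).trans (le_max_left _ _)), fun z hz => ?_⟩
  have hz1 : R₀ ≤ ‖z‖ := ((le_max_left _ _).trans (le_max_left _ _)).trans hz
  have hz2 : ‖P.coeff 0‖ + ε + 1 ≤ ‖z‖ := (le_max_right _ _).trans hz
  have h3 := hR₀ ‖z‖ hz1 z rfl
  have h4 : P.eval z = P.divX.eval z * z + P.coeff 0 := by
    conv_lhs => rw [← Polynomial.divX_mul_X_add P]
    simp
  have h5 : ‖P.divX.eval z * z‖ ≤ ‖P.eval z‖ + ‖P.coeff 0‖ := by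
    have h6 : P.divX.eval z * z = P.eval z - P.coeff 0 := by rw [h4]; ring
    rw [h6]
    exact norm_sub_le _ _
  rw [norm_mul] at h5
  have h7 : 2 * ‖z‖ ≤ ‖P.divX.eval z‖ * ‖z‖ := mul_le_mul_of_nonneg_right h3 (norm_nonneg _)
  linarith

theorem exists_trap {P : Polynomial ℂ} (hP : 2 ≤ P.natDegree) (ε : ℝ) :
    ∃ D : Set Sph, Trap (rat P 1) ε D := by
  obtain ⟨R, hR, hgrow⟩ := growth hP ε
  set D : Set Sph := (((↑) : ℂ → Sph) '' Metric.closedBall 0 R)ᶜ with hD
  have hcl : closure D ⊆ (((↑) : ℂ → Sph) '' Metric.ball 0 R)ᶜ := by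
    apply closure_minimal
    · apply Set.compl_subset_compl.2
      exact Set.image_mono Metric.ball_subset_closedBall
    · exact (OnePoint.isOpenEmbedding_coe.isOpenMap _ Metric.isOpen_ball).isClosed_compl
  have hDo : IsOpen D :=
    ((isCompact_closedBall (0 : ℂ) R).image continuous_coe).isClosed.isOpen_compl
  have hinf : (∞ : Sph) ∈ D := by
    rintro ⟨z, -, h⟩
    exact coe_ne_infty _ h
  refine ⟨D, hDo, hinf, ?_, ?_⟩
  · intro h
    have h1 : ((0 : ℂ) : Sph) ∈ closure D := by rw [h]; trivial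
    exact hcl h1 ⟨0, Metric.mem_ball_self hR, rfl⟩
  · intro a ha x hx
    induction x using OnePoint.rec with
    | infty =>
      rw [rat_one_infty (by omega), tr_infty]
      exact hinf
    | coe z =>
      have hz : R ≤ ‖z‖ := by
        by_contra hlt
        push Not at hlt
        exact hcl hx ⟨z, by simpa using hlt, rfl⟩
      rw [rat_one_coe, tr_coe]
      rintro ⟨y, hy, hyz⟩
      rw [coe_eq_coe] at hyz
      have h1 : ‖P.eval z + a‖ ≤ R := by rw [← hyz]; simpa using hy
      have h2 := hgrow z hz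
      have h3 : ‖P.eval z‖ ≤ ‖P.eval z + a‖ + ‖a‖ := by
        have := norm_sub_le (P.eval z + a) a
        simpa using this
      linarith

/-- the composition `(P + a (n-1)) ∘ ... ∘ (P + a 0)` -/
noncomputable def iterP (P : Polynomial ℂ) (a : ℕ → ℂ) : ℕ → Polynomial ℂ
  | 0 => Polynomial.X
  | n + 1 => P.comp (iterP P a n) + Polynomial.C (a n)

theorem iterP_runT (P : Polynomial ℂ) (w : List ℂ) (z : ℂ) :
    ∀ n ≤ w.length, runT (rat P 1) (w.take n) (z : Sph)
      = (((iterP P (fun j => w.getD j 0) n).eval z : ℂ) : Sph) := by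
  intro n
  induction n with
  | zero => intro _; simp [iterP]
  | succ n ih =>
    intro hn
    have h1 : n < w.length := by omega
    rw [List.take_succ_eq_append_getElem h1, runT_concat, ih (by omega), rat_one_coe, tr_coe]
    have h2 : w.getD n 0 = w[n] := List.getD_eq_getElem _ _ h1
    simp only [iterP, Polynomial.eval_add, Polynomial.eval_comp, Polynomial.eval_C, h2]

theorem kicks_card (w : List ℂ) (S : Finset ℕ)
    (hS : ∀ j ∈ S, j < w.length ∧ w.getD j 0 ≠ 0) : S.card ≤ kicks w := by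
  induction w using List.reverseRecOn generalizing S with
  | nil =>
    have : S = ∅ := by
      ext j
      constructor
      · intro hj; exact absurd (hS j hj).1 (by simp)
      · intro hj; exact absurd hj (Finset.notMem_empty j)
    rw [this]; simp
  | append_singleton w r ih =>
    have h1 : (S.erase w.length).card ≤ kicks w := by
      apply ih
      intro j hj
      rw [Finset.mem_erase] at hj
      obtain ⟨h2, h3⟩ := hS j hj.2
      rw [List.length_append, List.length_singleton] at h2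
      have h4 : j < w.length := by omega
      refine ⟨h4, ?_⟩
      rwa [List.getD_append _ _ _ _ h4] at h3
    by_cases hm : w.length ∈ S
    · have h2 := (hS _ hm).2
      have h3 : (w ++ [r]).getD w.length 0 = r := by
        simp [List.getD]
      rw [h3] at h2
      have h4 : kicks [r] = 1 := by
        unfold kicks
        simp [h2]
      rw [Finset.card_erase_of_mem hm] at h1
      rw [kicks_append, h4]
      omega
    · rw [Finset.erase_eq_of_notMem hm] at h1
      rw [kicks_append]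
      omega

theorem main {P : Polynomial ℂ} (hP : 2 ≤ P.natDegree) {ε : ℝ} (hε : 0 < ε) {M : ℕ}
    (hM : 1 ≤ M) :
    ∃ n₀ : ℕ, ∀ n ≥ n₀, ∃ a : ℕ → ℂ, (∀ j, ‖a j‖ < ε) ∧
      (∀ S : Finset ℕ, (∀ j ∈ S, j < n ∧ a j ≠ 0) → M * S.card ≤ n) ∧
      ∃ f : OnePoint ℂ → OnePoint ℂ, Continuous f ∧
        (∀ z : ℂ, f (OnePoint.some z) = OnePoint.some ((iterP P a n).eval z)) ∧
        ∀ c ∈ crit f, Attr f c := by
  obtain ⟨D, F⟩ := exists_trap hP ε
  have hcop : IsCoprime P 1 := isCoprime_one_right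
  have hdg : 1 ≤ dg P 1 := le_trans (by omega) (le_max_left P.natDegree _)
  obtain ⟨n₀, h⟩ := stage2 (rat_continuous hcop) (polyLike_rat P) (sphHol_rat hcop)
    (finCV_rat hcop hdg) hε hM F
  refine ⟨n₀, fun n hn => ?_⟩
  obtain ⟨w, hw, hl, hc⟩ := h n hn
  refine ⟨fun j => w.getD j 0, ?_, ?_, runT (rat P 1) w, runT_continuous (rat_continuous hcop) w,
    ?_, hc⟩
  · intro j
    simp only
    by_cases hj : j < w.length
    · rw [List.getD_eq_getElem _ _ hj]
      exact LL_small hw _ (List.getElem_mem hj)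
    · rw [List.getD_eq_default _ _ (by omega)]
      simpa using hε
  · intro S hS
    refine le_trans (Nat.mul_le_mul_left M ?_) (hl ▸ LL_kicks hw)
    apply kicks_card w S
    intro j hj
    obtain ⟨h1, h2⟩ := hS j hj
    exact ⟨by rw [hl]; exact h1, h2⟩
  · intro z
    have h1 := iterP_runT P w z n (by rw [hl])
    rw [List.take_of_length_le (by rw [hl])] at h1
    exact h1

end Pool.Agent.H35.NP
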